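import Pool.Agent.Zk72.NS.Shp

/-!
# Sharp stability of the exploration path: an arbitrary modification (module CLF of `Zk72/NS`)
-/

set_option autoImplicit false

namespace Pool.Agent.Zk82.NS

open H974 Finset H342P H984P H984N H12S H389NS Pool.Agent.Zk36.TT Pool.Agent.W92.DP
open Pool.Agent.Zk72.NS H984P.SideAux

variable {D : Dm} {U B F : Finset Edg}

theorem btw_sub (hU : U ⊆ D.edges) (hB : B ⊆ D.edges) (h : Btw U B F) : F ⊆ D.edges :=
  h.2.trans (Finset.union_subset hB hU)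

theorem bef_le (hD : D.Ok) (hF : F ⊆ D.edges) {i j : ℕ} (hi : i ≤ D.len F) (hj : j ≤ D.len F)
    (h : Bef D F (D.walk F i) (D.walk F j)) : i ≤ j := by
  obtain ⟨a, b, hab, hb, h1, h2⟩ := h
  have e1 := Pool.Agent.W92.DP.walk_ne hD hF (by omega) hi h1
  have e2 := Pool.Agent.W92.DP.walk_ne hD hF hb hj h2
  omega

theorem ex_step (P : Finset Edg → Prop) (W : Finset Edg) (h0 : P ∅) (h1 : ¬ P W) :
    ∃ W' ⊆ W, ∃ f ∈ W, f ∉ W' ∧ P W' ∧ ¬ P (insert f W') := by
  classical
  induction W using Finset.induction_on with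
  | empty => exact absurd h0 h1
  | @insert a W ha ih =>
    by_cases h : P W
    · exact ⟨W, Finset.subset_insert _ _, a, Finset.mem_insert_self _ _, ha, h, h1⟩
    · obtain ⟨W', hW', f, hf, h2, h3, h4⟩ := ih h
      exact ⟨W', hW'.trans (Finset.subset_insert _ _), f, Finset.mem_insert_of_mem hf, h2, h3, h4⟩

/-- the common part of the two cases; `E` is the lowest or the highest configuration -/
theorem core (hO : S_ORD) (hV : S_VIS) (hD : D.Ok) (hU : U ⊆ D.edges) (hB : B ⊆ D.edges)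
    {F₁ E : Finset Edg} (bF : Btw U B F) (b1 : Btw U B F₁) (bE : Btw U B E) {s : ℕ} (hs : 2 ≤ s)
    (hS : Small D U B s) {k t : ℕ} (hkt : k < t) (ht : t ≤ D.len F)
    (hk : Stab D U B (D.walk F k)) (hno : ∀ j, k < j → j ≤ t → ¬ Stab D U B (D.walk F j))
    (hvt : ∀ G, F ∩ F₁ ⊆ G → G ⊆ F ∪ F₁ → D.Vis G (D.walk F t))
    {e : Edg} (heU : e ∈ U) (hw : e ∉ D.wir) {i l t₁ r : ℕ} (hit : i < t₁) (htl : t₁ ≤ l)
    (hi : At D F₁ e i) (hl : At D F₁ e l) (htt : D.walk F₁ t₁ = D.walk F t)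
    (hr : r = i ∨ r = l)
    (hvr : ∀ G, F₁ ∩ E ⊆ G → G ⊆ F₁ ∪ E → D.Vis G (D.walk F₁ r))
    (hE : ∀ k t, k < t → t ≤ D.len E → Stab D U B (D.walk E k) →
      (∀ j, k < j → j ≤ t → ¬ Stab D U B (D.walk E j)) →
      sd (src (ae (D.walk E k))) (D.walk E t).1 ≤ s) :
    sd (src (ae (D.walk F k))) (D.walk F t).1 ≤ 3 * s := by
  have sF := btw_sub hU hB bF
  have s1 := btw_sub hU hB b1
  have sE := btw_sub hU hB bE
  have hl1 := hl.1
  have hstab : ∀ σ, Stab D U B σ → ∀ G, Btw U B G → D.Vis G σ :=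
    fun σ h => (hV D U B σ hD hU hB).1 h
  have bI : ∀ {X Y G : Finset Edg}, Btw U B X → Btw U B Y → X ∩ Y ⊆ G → G ⊆ X ∪ Y → Btw U B G :=
    fun hX hY h1 h2 => ⟨(Finset.subset_inter hX.1 hY.1).trans h1,
      h2.trans (Finset.union_subset hX.2 hY.2)⟩
  set σ := D.walk F k with hσ
  set τ := D.walk F t with hτ
  -- the time of `σ` in `F₁`
  obtain ⟨k₁, hk₁, hσ₁⟩ := hstab σ hk F₁ b1
  -- the excursion is small
  have hsmall : sd (src e) τ.1 ≤ s := by
    rcases Nat.lt_or_eq_of_le htl with h | h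
    · by_contra hc
      refine hS F₁ b1 e heU hw ⟨i, t₁, l, hit, h, hi, hl, ?_⟩
      rw [htt]
      omega
    · have := at_near hl
      rw [← h, htt] at this
      omega
  -- order in `F₁`
  have hord1 : Bef D F₁ σ τ := hO D F F₁ σ τ hD sF s1
    (fun G h1 h2 => ⟨hstab σ hk G (bI bF b1 h1 h2), hvt G h1 h2⟩) ⟨k, t, hkt.le, ht, rfl, rfl⟩
  have hne : σ ≠ τ := fun h => hkt.ne (Pool.Agent.W92.DP.walk_ne hD sF (by omega) ht h)
  have ht₁ : t₁ ≤ D.len F₁ := by omega
  have hkt₁ : k₁ < t₁ := by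
    have h1 : k₁ ≤ t₁ := bef_le hD s1 hk₁ ht₁ (by rw [hσ₁, htt]; exact hord1)
    rcases Nat.lt_or_eq_of_le h1 with h | h
    · exact h
    · exfalso
      apply hne
      rw [← hσ₁, ← htt, h]
  -- no stable state in `(i, l]`
  have hno2 : ∀ j, i < j → j ≤ l → ¬ Stab D U B (D.walk F₁ j) := by
    intro j h1 h2 h3
    have bG : Btw U B (flip e F₁) := by
      constructor
      · intro g hg
        have : g ≠ e := by
          rintro rfl
          exact (Finset.mem_sdiff.mp hg).2 heU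
        exact (mem_flip_ne this).2 (b1.1 hg)
      · intro g hg
        by_cases hge : g = e
        · rw [hge]; exact Finset.mem_union_right _ heU
        · exact b1.2 ((mem_flip_ne hge).1 hg)
    exact not_vis hD s1 hw ⟨by omega, hi, hl⟩ h1 h2 (hstab _ h3 _ bG)
  have hki : k₁ ≤ i := by
    by_contra h
    push Not at h
    exact hno2 k₁ h (by omega) (by rw [hσ₁]; exact hk)
  -- no stable state in `(k₁, t₁]`
  have hno1 : ∀ j, k₁ < j → j ≤ t₁ → ¬ Stab D U B (D.walk F₁ j) := by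
    intro j h1 h2 h3
    have hj : j ≤ D.len F₁ := by omega
    have g1 : Bef D F σ (D.walk F₁ j) := hO D F₁ F _ _ hD s1 sF
      (fun G h1 h2 => ⟨hstab σ hk G (bI b1 bF h1 h2), hstab _ h3 G (bI b1 bF h1 h2)⟩)
      ⟨k₁, j, h1.le, hj, hσ₁, rfl⟩
    have g2 : Bef D F (D.walk F₁ j) τ := hO D F₁ F _ _ hD s1 sF
      (fun G h1 h2 => ⟨hstab _ h3 G (bI b1 bF h1 h2),
        hvt G (by rw [Finset.inter_comm]; exact h1) (by rw [Finset.union_comm]; exact h2)⟩)
      ⟨j, t₁, h2, ht₁, rfl, htt⟩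
    obtain ⟨j', hj', hjj⟩ := hstab _ h3 F bF
    rw [← hjj] at g1 g2
    have e1 := bef_le hD sF (by omega) hj' g1
    have e2 := bef_le hD sF hj' ht g2
    have e3 : k ≠ j' := by
      rintro rfl
      have : D.walk F₁ k₁ = D.walk F₁ j := by rw [hσ₁, ← hjj]
      exact h1.ne (Pool.Agent.W92.DP.walk_ne hD s1 hk₁ hj this)
    exact hno j' (by omega) e2 (by rw [hjj]; exact h3)
  have hno3 : ∀ j, k₁ < j → j ≤ l → ¬ Stab D U B (D.walk F₁ j) := by
    intro j h1 h2
    rcases le_or_gt j t₁ with h | h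
    · exact hno1 j h1 h
    · exact hno2 j (by omega) h2
  have hrl : r ≤ l := by omega
  have hrn : sd (src e) (D.walk F₁ r).1 ≤ 1 := by
    rcases hr with rfl | rfl
    · exact at_near hi
    · exact at_near hl
  have hrn' : sd (D.walk F₁ r).1 (src e) ≤ 1 := by
    unfold sd at hrn ⊢
    rw [abs_sub_comm, abs_sub_comm (D.walk F₁ r).1.2]
    exact hrn
  have hσr : sd (src (ae σ)) (D.walk F₁ r).1 ≤ s := by
    rcases Nat.lt_or_eq_of_le (show k₁ ≤ r by omega) with hkr | hkr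
    · -- the order in `E`
      obtain ⟨kE, hkE, hσE⟩ := hstab σ hk E bE
      obtain ⟨rE, hrE, hρE⟩ := hvr E Finset.inter_subset_right Finset.subset_union_right
      have g0 : Bef D E σ (D.walk F₁ r) := hO D F₁ E _ _ hD s1 sE
        (fun G h1 h2 => ⟨hstab σ hk G (bI b1 bE h1 h2), hvr G h1 h2⟩)
        ⟨k₁, r, hkr.le, by omega, hσ₁, rfl⟩
      have hle : kE ≤ rE := bef_le hD sE hkE hrE (by rw [hσE, hρE]; exact g0)
      have hlt : kE < rE := by
        rcases Nat.lt_or_eq_of_le hle with h | h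
        · exact h
        · exfalso
          have : D.walk F₁ k₁ = D.walk F₁ r := by rw [hσ₁, ← hσE, h, hρE]
          exact hkr.ne (Pool.Agent.W92.DP.walk_ne hD s1 hk₁ (by omega) this)
      have := hE kE rE hlt hrE (by rw [hσE]; exact hk) (by
        intro j h1 h2 h3
        have hj : j ≤ D.len E := by omega
        have g1 : Bef D F₁ σ (D.walk E j) := hO D E F₁ _ _ hD sE s1
          (fun G h1 h2 => ⟨hstab σ hk G (bI bE b1 h1 h2), hstab _ h3 G (bI bE b1 h1 h2)⟩)
          ⟨kE, j, h1.le, hj, hσE, rfl⟩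
        have g2 : Bef D F₁ (D.walk E j) (D.walk F₁ r) := hO D E F₁ _ _ hD sE s1
          (fun G h1 h2 => ⟨hstab _ h3 G (bI bE b1 h1 h2),
            hvr G (by rw [Finset.inter_comm]; exact h1) (by rw [Finset.union_comm]; exact h2)⟩)
          ⟨j, rE, h2, hrE, rfl, hρE⟩
        obtain ⟨j', hj', hjj⟩ := hstab _ h3 F₁ b1
        rw [← hjj] at g1 g2
        rw [← hσ₁] at g1
        have e1 := bef_le hD s1 hk₁ hj' g1
        have e2 := bef_le hD s1 hj' (by omega) g2
        have e3 : k₁ ≠ j' := by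
          rintro rfl
          have : D.walk E kE = D.walk E j := by rw [hσE, ← hjj, hσ₁]
          exact h1.ne (Pool.Agent.W92.DP.walk_ne hD sE hkE hj this)
        exact hno3 j' (by omega) (by omega) (by rw [hjj]; exact h3))
      rw [hσE, hρE] at this
      exact this
    · have hi2 : i = r := by omega
      have : ae σ = e := by
        rw [← hσ₁, hkr, ← hi2]
        exact hi.2
      rw [this]
      omega
  have t1 := Walk_sd_tri (src (ae σ)) (D.walk F₁ r).1 τ.1
  have t2 := Walk_sd_tri (D.walk F₁ r).1 (src e) τ.1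
  omega

theorem op_walk (hD : D.Ok) (hF : F ⊆ D.edges) {e : Edg} {i l : ℕ} (hil : i < l)
    (hi : At D F e i) (hl : At D F e l) : D.walk F l = op (D.walk F i) := by
  rcases ae_eq (hi.2.trans hl.2.symm) with h | h
  · exact absurd (Pool.Agent.W92.DP.walk_ne hD hF hl.1.le hi.1.le h) hil.ne'
  · exact h

theorem clu_del (hD : D.Ok) (bF : Btw U B F) {W : Finset Edg}
    (hW : ∀ u, u ∈ F → u ∈ U → u ∉ D.wir →
      (src u ∈ D.clu (B \ U) ∨ tgt u ∈ D.clu (B \ U)) → u ∈ W) :
    D.clu (F \ W) ⊆ D.clu (B \ U) := by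
  intro v hv
  have hv' : Relation.ReflTransGen (Adj (D.cfg (F \ W))) (0, 0) v := hv
  induction hv' with
  | refl => exact Reach.refl _ _
  | @tail a b hab h ih =>
    have ha : a ∈ D.clu (B \ U) := ih hab
    obtain ⟨e, he, hab⟩ := h
    by_cases hw : e ∈ D.wir
    · have h2 := wir_clu hD (B \ U) hw
      rcases hab with h | h
      · rw [h.2] at h2; exact h2.2
      · rw [h.1] at h2; exact h2.1
    · rcases he with he | he
      · have he' : e ∈ F ∧ e ∉ W := Finset.mem_sdiff.mp (Finset.mem_coe.mp he)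
        by_cases hU : e ∈ U
        · exfalso
          apply he'.2
          apply hW e he'.1 hU hw
          rcases hab with h | h
          · left; rw [h.1]; exact ha
          · right; rw [h.2]; exact ha
        · have h3 : e ∈ B \ U := by
            rcases Finset.mem_union.mp (bF.2 he'.1) with h | h
            · exact Finset.mem_sdiff.mpr ⟨h, hU⟩
            · exact absurd h hU
          have h4 : Reach (D.cfg (B \ U)) (0, 0) a := ha
          exact h4.trans (Adj.reach ⟨e, Or.inl (Finset.mem_coe.mpr h3), hab⟩)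
      · exact absurd he hw

theorem dclu_add (bF : Btw U B F) {W : Finset Edg}
    (hW : ∀ u, u ∉ F → u ∈ U → u ∉ D.wir →
      (dsrc u ∈ D.dclu (B ∪ U) ∨ dtgt u ∈ D.dclu (B ∪ U)) → u ∈ W) :
    D.dclu (F ∪ W) ⊆ D.dclu (B ∪ U) := by
  rintro v ⟨g, hg, hv⟩
  have hv' : Relation.ReflTransGen (DAdj (↑D.edges \ D.cfg (F ∪ W) : Set Edg)) g v := hv
  induction hv' with
  | refl => exact ⟨g, hg, DReach.refl _ _⟩
  | @tail a b hab h ih =>
    have ha : a ∈ D.dclu (B ∪ U) := ih hab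
    obtain ⟨e, he, hab⟩ := h
    have he1 : e ∉ F := fun h => he.2 (Or.inl (Finset.mem_coe.mpr (Finset.mem_union_left _ h)))
    have he2 : e ∉ W := fun h => he.2 (Or.inl (Finset.mem_coe.mpr (Finset.mem_union_right _ h)))
    have he3 : e ∉ D.wir := fun h => he.2 (Or.inr h)
    have hU : e ∉ U := by
      intro hU
      apply he2
      apply hW e he1 hU he3
      rcases hab with h | h
      · left; rw [h.1]; exact ha
      · right; rw [h.2]; exact ha
    have h4 : e ∉ D.cfg (B ∪ U) := by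
      rintro (h | h)
      · rcases Finset.mem_union.mp (Finset.mem_coe.mp h) with h | h
        · exact he1 (bF.1 (Finset.mem_sdiff.mpr ⟨h, hU⟩))
        · exact hU h
      · exact he3 h
    obtain ⟨g', hg', hr⟩ := ha
    exact ⟨g', hg', hr.trans (DAdj.reach ⟨e, ⟨he.1, h4⟩, hab⟩)⟩

theorem vis_of (hD : D.Ok) {A C G : Finset Edg} {σ : St} (hC : C ⊆ D.edges) (h1 : σ.1 ∈ D.clu A)
    (h2 : face σ ∈ D.dclu C) (hA : A ⊆ G) (hG : G ⊆ C) : D.Vis G σ :=
  H443B.visited hD (hG.trans hC) (clu_mono hA h1) (dclu_mono hG h2)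

/-- CLF: an arbitrary modification -/
theorem t_CLF (hO : S_ORD) (hX : S_EXC) (hV : S_VIS) (hL : S_CLL) (hH : S_CLH) : S_CLF := by
  classical
  intro D U B F s k t hD hU hB bF hs hS hkt ht hk hno
  have sF := btw_sub hU hB bF
  have sL : B \ U ⊆ D.edges := Finset.sdiff_subset.trans hB
  have sH : B ∪ U ⊆ D.edges := Finset.union_subset hB hU
  have hτ := walk_clu hD sF ht
  have hns := hno t hkt le_rfl
  have hcase : (D.walk F t).1 ∉ D.clu (B \ U) ∨ face (D.walk F t) ∉ D.dclu (B ∪ U) := by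
    by_contra h
    push Not at h
    exact hns h
  rcases hcase with hA | hA
  · set W := F.filter (fun u => u ∈ U ∧ u ∉ D.wir ∧
      (src u ∈ D.clu (B \ U) ∨ tgt u ∈ D.clu (B \ U))) with hWdef
    have hWm : ∀ u, u ∈ W ↔ u ∈ F ∧ u ∈ U ∧ u ∉ D.wir ∧
        (src u ∈ D.clu (B \ U) ∨ tgt u ∈ D.clu (B \ U)) := fun u => Finset.mem_filter
    have hsub := clu_del hD bF (W := W) (fun u h1 h2 h3 h4 => (hWm u).2 ⟨h1, h2, h3, h4⟩)
    obtain ⟨W', hW', f, hfW, hfW', hP1, hP2⟩ := ex_step (fun X => D.Vis (F \ X) (D.walk F t)) W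
      (by
        rw [Finset.sdiff_empty]
        exact ⟨t, ht, rfl⟩)
      (by
        rintro ⟨m, hm, h⟩
        apply hA
        apply hsub
        rw [← h]
        exact (walk_clu hD (Finset.sdiff_subset.trans sF) hm).1)
    obtain ⟨f1, f2, f3, f4⟩ := (hWm f).1 hfW
    set F₁ := F \ W' with hF₁
    have b1 : Btw U B F₁ := by
      refine ⟨fun g hg => ?_, Finset.sdiff_subset.trans bF.2⟩
      rw [hF₁, Finset.mem_sdiff]
      exact ⟨bF.1 hg, fun h => (Finset.mem_sdiff.mp hg).2 ((hWm g).1 (hW' h)).2.1⟩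
    have bL : Btw U B (B \ U) := ⟨Finset.Subset.refl _, Finset.sdiff_subset.trans
      Finset.subset_union_left⟩
    have s1 := btw_sub hU hB b1
    have hsub1 : F₁ ⊆ F := Finset.sdiff_subset
    have hfl : flip f F₁ = F \ insert f W' := by
      unfold Pool.Agent.Zk36.TT.flip
      rw [if_pos (Finset.mem_sdiff.mpr ⟨f1, hfW'⟩), Finset.sdiff_insert, hF₁]
    obtain ⟨t₁, ht₁, htt⟩ := hP1
    obtain ⟨i, l, hit, htl, hi, hl⟩ := hX D F₁ f t₁ hD s1 (hU f2) f3 ht₁
      (by rw [hfl, htt]; exact hP2)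
    have hop := op_walk hD s1 (by omega : i < l) hi hl
    have hτ1 := walk_clu hD s1 ht₁
    obtain ⟨r, hr, hrc⟩ : ∃ r, (r = i ∨ r = l) ∧ (D.walk F₁ r).1 ∈ D.clu (B \ U) := by
      have he := ends (D.walk F₁ i)
      rw [hi.2, ← hop] at he
      rcases he with he | he <;> rw [he.1, he.2] at f4
      · rcases f4 with h | h
        · exact ⟨i, Or.inl rfl, h⟩
        · exact ⟨l, Or.inr rfl, h⟩
      · rcases f4 with h | h
        · exact ⟨l, Or.inr rfl, h⟩
        · exact ⟨i, Or.inl rfl, h⟩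
    have hr1 : r ≤ D.len F₁ := by
      have := hi.1
      have := hl.1
      omega
    refine core hO hV hD hU hB bF b1 bL hs hS hkt ht hk hno ?_ f2 f3 hit htl hi hl htt hr ?_
      (fun k t h1 h2 h3 h4 => hL D U B s k t hD hU hB hs hS h1 h2 h3 h4)
    · intro G h1 h2
      rw [Finset.inter_eq_right.mpr hsub1] at h1
      rw [Finset.union_eq_left.mpr hsub1] at h2
      exact vis_of hD sF (htt ▸ hτ1.1) hτ.2 h1 h2
    · intro G h1 h2
      rw [Finset.inter_eq_right.mpr b1.1] at h1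
      rw [Finset.union_eq_left.mpr b1.1] at h2
      exact vis_of hD s1 hrc (walk_clu hD s1 hr1).2 h1 h2
  · set W := U.filter (fun u => u ∉ F ∧ u ∉ D.wir ∧
      (dsrc u ∈ D.dclu (B ∪ U) ∨ dtgt u ∈ D.dclu (B ∪ U))) with hWdef
    have hWm : ∀ u, u ∈ W ↔ u ∈ U ∧ u ∉ F ∧ u ∉ D.wir ∧
        (dsrc u ∈ D.dclu (B ∪ U) ∨ dtgt u ∈ D.dclu (B ∪ U)) := fun u => Finset.mem_filter
    have hWU : W ⊆ U := fun u hu => ((hWm u).1 hu).1
    have hsub := dclu_add (D := D) bF (W := W) (fun u h1 h2 h3 h4 => (hWm u).2 ⟨h2, h1, h3, h4⟩)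
    obtain ⟨W', hW', f, hfW, hfW', hP1, hP2⟩ := ex_step (fun X => D.Vis (F ∪ X) (D.walk F t)) W
      (by
        rw [Finset.union_empty]
        exact ⟨t, ht, rfl⟩)
      (by
        rintro ⟨m, hm, h⟩
        apply hA
        apply hsub
        rw [← h]
        exact (walk_clu hD (Finset.union_subset sF (hWU.trans hU)) hm).2)
    obtain ⟨f2, f1, f3, f4⟩ := (hWm f).1 hfW
    set F₁ := F ∪ W' with hF₁
    have b1 : Btw U B F₁ := ⟨bF.1.trans Finset.subset_union_left,
      Finset.union_subset bF.2 ((hW'.trans hWU).trans Finset.subset_union_right)⟩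
    have bH : Btw U B (B ∪ U) := ⟨Finset.sdiff_subset.trans Finset.subset_union_left,
      Finset.Subset.refl _⟩
    have s1 := btw_sub hU hB b1
    have hsub1 : F ⊆ F₁ := Finset.subset_union_left
    have hfl : flip f F₁ = F ∪ insert f W' := by
      unfold Pool.Agent.Zk36.TT.flip
      rw [if_neg (by
        rw [hF₁, Finset.mem_union]
        rintro (h | h)
        · exact f1 h
        · exact hfW' h), Finset.union_insert, hF₁]
    obtain ⟨t₁, ht₁, htt⟩ := hP1
    obtain ⟨i, l, hit, htl, hi, hl⟩ := hX D F₁ f t₁ hD s1 (hU f2) f3 ht₁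
      (by rw [hfl, htt]; exact hP2)
    have hop := op_walk hD s1 (by omega : i < l) hi hl
    have hτ1 := walk_clu hD s1 ht₁
    obtain ⟨r, hr, hrc⟩ : ∃ r, (r = i ∨ r = l) ∧ face (D.walk F₁ r) ∈ D.dclu (B ∪ U) := by
      have he := faces (D.walk F₁ i)
      rw [hi.2, ← hop] at he
      rcases he with he | he <;> rw [he.1, he.2] at f4
      · rcases f4 with h | h
        · exact ⟨i, Or.inl rfl, h⟩
        · exact ⟨l, Or.inr rfl, h⟩
      · rcases f4 with h | h
        · exact ⟨l, Or.inr rfl, h⟩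
        · exact ⟨i, Or.inl rfl, h⟩
    have hr1 : r ≤ D.len F₁ := by
      have := hi.1
      have := hl.1
      omega
    refine core hO hV hD hU hB bF b1 bH hs hS hkt ht hk hno ?_ f2 f3 hit htl hi hl htt hr ?_
      (fun k t h1 h2 h3 h4 => hH D U B s k t hD hU hB hs hS h1 h2 h3 h4)
    · intro G h1 h2
      rw [Finset.inter_eq_left.mpr hsub1] at h1
      rw [Finset.union_eq_right.mpr hsub1] at h2
      exact vis_of hD s1 hτ.1 (htt ▸ hτ1.2) h1 h2
    · intro G h1 h2
      rw [Finset.inter_eq_left.mpr b1.2] at h1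
      rw [Finset.union_eq_right.mpr b1.2] at h2
      exact vis_of hD sH (walk_clu hD s1 hr1).1 hrc h1 h2

end Pool.Agent.Zk82.NS
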